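import Pool.Agent.PCP53.Pair

/-!
Two close points with both distances at least `1/4`: the pair lemma gives the new generator.
-/

namespace PCP53

lemma rho_le : 2 / Real.sqrt 3 ≤ 116 / 100 := by
  have h1 : (50 / 29 : ℝ) ≤ Real.sqrt 3 := by
    apply Real.le_sqrt_of_sq_le
    norm_num
  have h2 : (0 : ℝ) < Real.sqrt 3 := by positivity
  rw [div_le_iff₀ h2]
  linarith

/-- The case of the main lemma with two close indices `i`, `j`, both at least `1/4`. -/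
theorem case_big {H : Type*} [NormedAddCommGroup H] [InnerProductSpace ℝ H] {ι : Type*}
    (P : ι → ℝ) (τ : ι → H)
    (htight : ∀ i j, i ≠ j → P i + P j < 2 / Real.sqrt 3 → ‖τ i - τ j‖ ^ 2 ≤ 3)
    (htri : ∀ i j k, i ≠ j → i ≠ k → j ≠ k →
      3 ≤ 2 * P i + P j + P k ∨ 3 ≤ P i + 2 * P j + P k ∨ 3 ≤ P i + P j + 2 * P k)
    (hunc : ∀ i, 4 / 3 < P i ^ 2 + ‖τ i‖ ^ 2) (i j : ι) (hij : i ≠ j) (hi : 1 / 4 ≤ P i)
    (hj : 1 / 4 ≤ P j) (h1 : 1 ≤ P i + P j) (hsum : P i + P j < 2 / Real.sqrt 3) :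
    ∃ (Q : ℝ) (v : H), 1 ≤ Q ∧ Q ^ 2 + ‖v‖ ^ 2 ≤ 4 / 3 ∧
      ∀ k, 4 ≤ (Q + P k) ^ 2 + ‖τ k + v‖ ^ 2 ∧
        (Q + P k < 2 / Real.sqrt 3 → ‖τ k + v‖ ^ 2 ≤ 3) := by
  have hρ := rho_le
  obtain ⟨v, hv, hvi, hvj⟩ := pair_v (τ i) (τ j) (P i) (P j) hi hj h1 (by linarith)
    (htight i j hij hsum) (hunc i) (hunc j)
  refine ⟨27 / 25, v, by norm_num, ?_, ?_⟩
  · have h2 : ‖v‖ ^ 2 ≤ (2 / 5) ^ 2 := pow_le_pow_left₀ (norm_nonneg v) hv 2
    linarith
  · intro k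
    by_cases hki : k = i
    · subst hki
      exact ⟨hvi, fun h => by linarith⟩
    · by_cases hkj : k = j
      · subst hkj
        exact ⟨hvj, fun h => by linarith⟩
      · have hPk : 92 / 100 ≤ P k := by
          rcases htri i j k hij (fun h => hki h.symm) (fun h => hkj h.symm) with h | h | h
          · linarith
          · linarith
          · linarith
        refine ⟨?_, fun h => by linarith⟩
        have h2 : (2 : ℝ) ^ 2 ≤ (27 / 25 + P k) ^ 2 :=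
          pow_le_pow_left₀ (by norm_num) (by linarith) 2
        nlinarith [sq_nonneg ‖τ k + v‖]

end PCP53
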