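import Mathlib

/-!
The pair lemma: two exceptional points can be avoided together.
-/

namespace PCP53

lemma chord {x : ℝ} (h1 : 1 / 4 ≤ x) (h2 : x ≤ 91 / 100) : x ^ 2 ≤ 29 / 25 * x - 91 / 400 := by
  nlinarith [mul_nonneg (sub_nonneg.2 h1) (sub_nonneg.2 h2)]

/-- the numerical inequalities for `l ≤ 1/2` -/
lemma numHalf {a b l : ℝ} (ha : 1 / 4 ≤ a) (hb : 1 / 4 ≤ b) (h1 : 1 ≤ a + b)
    (h2 : a + b ≤ 29 / 25) (hl0 : 0 ≤ l) (hl : l ≤ 1 / 2) :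
    0 < 4 / 3 - (1 - l) * a ^ 2 - l * b ^ 2 - 3 * l * (1 - l) ∧
    ∀ T : ℝ, 0 ≤ T → 4 / 3 - (1 - l) * a ^ 2 - l * b ^ 2 - 3 * l * (1 - l) ≤ T ^ 2 →
      4 ≤ (27 / 25) ^ 2 + (2 / 5) ^ 2 + 4 / 3 + 2 * (27 / 25) * ((1 - l) * a + l * b)
        + 4 / 5 * T := by
  have ca := chord ha (by linarith)
  have cb := chord hb (by linarith)
  obtain ⟨L, hL⟩ : ∃ L : ℝ, L = (1 - l) * a + l * b := ⟨_, rfl⟩
  have hM : 4 / 3 + 91 / 400 - 29 / 25 * L - 3 * l * (1 - l)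
      ≤ 4 / 3 - (1 - l) * a ^ 2 - l * b ^ 2 - 3 * l * (1 - l) := by
    have e1 := mul_le_mul_of_nonneg_left ca (show (0 : ℝ) ≤ 1 - l by linarith)
    have e2 := mul_le_mul_of_nonneg_left cb hl0
    rw [hL]
    linarith
  have hLmax : L ≤ 91 / 100 - 66 / 100 * l := by
    have e1 : l * b ≤ l * (29 / 25 - a) := mul_le_mul_of_nonneg_left (by linarith) hl0
    have e2 : (1 - 2 * l) * a ≤ (1 - 2 * l) * (91 / 100) :=
      mul_le_mul_of_nonneg_left (by linarith) (by linarith)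
    rw [hL]
    linarith
  have hLmin : 1 / 4 + l / 2 ≤ L := by
    have e1 : l * (1 - a) ≤ l * b := mul_le_mul_of_nonneg_left (by linarith) hl0
    have e2 : (1 - 2 * l) * (1 / 4) ≤ (1 - 2 * l) * a :=
      mul_le_mul_of_nonneg_left (by linarith) (by linarith)
    rw [hL]
    linarith
  refine ⟨?_, ?_⟩
  · refine lt_of_lt_of_le ?_ hM
    nlinarith [sq_nonneg (l - 37 / 100)]
  · intro T hT hMT
    rw [← hL]
    by_contra hc
    push Not at hc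
    obtain ⟨r, hr⟩ : ∃ r : ℝ, r = 8 / 3 - 829 / 625 - 54 / 25 * L := ⟨_, rfl⟩
    have hTr : 4 / 5 * T < r := by rw [hr]; linarith
    have hr0 : 0 < r := lt_of_le_of_lt (by positivity) hTr
    have hsq : 16 / 25 * T ^ 2 < r ^ 2 := by
      have : (4 / 5 * T) ^ 2 < r ^ 2 := pow_lt_pow_left₀ hTr (by positivity) two_ne_zero
      linarith
    obtain ⟨w, hw⟩ : ∃ w : ℝ, w = 8 / 3 - 829 / 625 - 27 / 50 - 27 / 25 * l := ⟨_, rfl⟩
    have hrw : r ≤ w := by rw [hr, hw]; linarith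
    have hLr : L = (8 / 3 - 829 / 625 - r) * (25 / 54) := by rw [hr]; ring
    have hK : 16 / 25 * (4 / 3 + 91 / 400 - 29 / 25 * L - 3 * l * (1 - l)) < r ^ 2 := by
      have := hM.trans hMT
      linarith
    have hprod : 0 ≤ r * (w - r) := mul_nonneg hr0.le (by linarith)
    have hK2 : 16 / 25 * (4 / 3 + 91 / 400 - 29 / 54 * (8 / 3 - 829 / 625) - 3 * l * (1 - l))
        + 232 / 675 * r < r ^ 2 := by
      rw [hLr] at hK
      linarith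
    rcases le_or_gt w (232 / 675) with hcase | hcase
    · have h3 : 0 ≤ (232 / 675 - w) * r := mul_nonneg (by linarith) hr0.le
      nlinarith [sq_nonneg (l - 1 / 2)]
    · have h3 : 0 ≤ (w - 232 / 675) * (w - r) := mul_nonneg (by linarith) (by linarith)
      have h4 : 16 / 25 * (4 / 3 + 91 / 400 - 29 / 54 * (8 / 3 - 829 / 625) - 3 * l * (1 - l))
          + 232 / 675 * w < w ^ 2 := by nlinarith
      rw [hw] at h4
      nlinarith [sq_nonneg (l - 37 / 100)]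

/-- the numerical inequalities for all `l` in `[0,1]` -/
lemma num {a b l : ℝ} (ha : 1 / 4 ≤ a) (hb : 1 / 4 ≤ b) (h1 : 1 ≤ a + b)
    (h2 : a + b ≤ 29 / 25) (hl0 : 0 ≤ l) (hl : l ≤ 1) :
    0 < 4 / 3 - (1 - l) * a ^ 2 - l * b ^ 2 - 3 * l * (1 - l) ∧
    ∀ T : ℝ, 0 ≤ T → 4 / 3 - (1 - l) * a ^ 2 - l * b ^ 2 - 3 * l * (1 - l) ≤ T ^ 2 →
      4 ≤ (27 / 25) ^ 2 + (2 / 5) ^ 2 + 4 / 3 + 2 * (27 / 25) * ((1 - l) * a + l * b)
        + 4 / 5 * T := by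
  rcases le_or_gt l (1 / 2) with h | h
  · exact numHalf ha hb h1 h2 hl0 h
  · have := numHalf (a := b) (b := a) (l := 1 - l) hb ha (by linarith) (by linarith)
      (by linarith) (by linarith)
    obtain ⟨e1, e2⟩ := this
    refine ⟨by linarith, ?_⟩
    intro T hT hMT
    have := e2 T hT (by linarith)
    linarith

variable {H : Type*} [NormedAddCommGroup H] [InnerProductSpace ℝ H]

lemma norm_comb (x y : H) (l : ℝ) :
    ‖(1 - l) • x + l • y‖ ^ 2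
      = (1 - l) * ‖x‖ ^ 2 + l * ‖y‖ ^ 2 - l * (1 - l) * ‖x - y‖ ^ 2 := by
  have e1 := norm_add_sq_real ((1 - l) • x) (l • y)
  have e2 := norm_sub_sq_real x y
  rw [e1, e2, norm_smul, norm_smul, real_inner_smul_left, real_inner_smul_right, mul_pow, mul_pow,
    Real.norm_eq_abs, Real.norm_eq_abs, sq_abs, sq_abs]
  ring

theorem pair_v (τ₁ τ₂ : H) (a b : ℝ) (ha : 1 / 4 ≤ a) (hb : 1 / 4 ≤ b) (h1 : 1 ≤ a + b)
    (h2 : a + b ≤ 116 / 100) (hd : ‖τ₁ - τ₂‖ ^ 2 ≤ 3) (hA : 4 / 3 < a ^ 2 + ‖τ₁‖ ^ 2)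
    (hB : 4 / 3 < b ^ 2 + ‖τ₂‖ ^ 2) :
    ∃ v : H, ‖v‖ ≤ 2 / 5 ∧ 4 ≤ (27 / 25 + a) ^ 2 + ‖τ₁ + v‖ ^ 2 ∧
      4 ≤ (27 / 25 + b) ^ 2 + ‖τ₂ + v‖ ^ 2 := by
  have h2' : a + b ≤ 29 / 25 := by linarith
  obtain ⟨t, ht⟩ : ∃ t : ℝ → H, t = fun l => (1 - l) • τ₁ + l • τ₂ := ⟨_, rfl⟩
  have htc : Continuous t := by
    rw [ht]
    fun_prop
  have hM : ∀ l : ℝ, 0 ≤ l → l ≤ 1 →
      4 / 3 - (1 - l) * a ^ 2 - l * b ^ 2 - 3 * l * (1 - l) ≤ ‖t l‖ ^ 2 := by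
    intro l hl0 hl1
    rw [ht]
    change _ ≤ ‖(1 - l) • τ₁ + l • τ₂‖ ^ 2
    rw [norm_comb]
    have e1 : l * (1 - l) * ‖τ₁ - τ₂‖ ^ 2 ≤ l * (1 - l) * 3 :=
      mul_le_mul_of_nonneg_left hd (mul_nonneg hl0 (by linarith))
    have e2 : (1 - l) * (4 / 3 - a ^ 2) ≤ (1 - l) * ‖τ₁‖ ^ 2 :=
      mul_le_mul_of_nonneg_left (by linarith) (by linarith)
    have e3 : l * (4 / 3 - b ^ 2) ≤ l * ‖τ₂‖ ^ 2 :=
      mul_le_mul_of_nonneg_left (by linarith) hl0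
    linarith
  have hpos : ∀ l : ℝ, 0 ≤ l → l ≤ 1 → 0 < ‖t l‖ := by
    intro l hl0 hl1
    have e1 := (num ha hb h1 h2' hl0 hl1).1
    have e2 := hM l hl0 hl1
    have e3 : 0 < ‖t l‖ ^ 2 := by linarith
    by_contra hc
    have e4 : ‖t l‖ = 0 := le_antisymm (not_lt.mp hc) (norm_nonneg _)
    rw [e4] at e3
    norm_num at e3
  obtain ⟨v, hv⟩ : ∃ v : ℝ → H, v = fun l => (2 / 5 * ‖t l‖⁻¹) • t l := ⟨_, rfl⟩
  have hvn : ∀ l : ℝ, 0 ≤ l → l ≤ 1 → ‖v l‖ = 2 / 5 := by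
    intro l hl0 hl1
    have e := hpos l hl0 hl1
    rw [hv]
    change ‖(2 / 5 * ‖t l‖⁻¹) • t l‖ = 2 / 5
    rw [norm_smul, Real.norm_eq_abs, abs_of_nonneg (by positivity)]
    field_simp
  have hvi : ∀ l : ℝ, 0 ≤ l → l ≤ 1 → inner ℝ (t l) (v l) = 2 / 5 * ‖t l‖ := by
    intro l hl0 hl1
    have e := hpos l hl0 hl1
    rw [hv]
    change inner ℝ (t l) ((2 / 5 * ‖t l‖⁻¹) • t l) = _
    rw [real_inner_smul_right, real_inner_self_eq_norm_sq]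
    field_simp
  -- the convex combination
  have hcomb : ∀ l : ℝ, 0 ≤ l → l ≤ 1 →
      4 < (1 - l) * ((27 / 25 + a) ^ 2 + ‖τ₁ + v l‖ ^ 2)
        + l * ((27 / 25 + b) ^ 2 + ‖τ₂ + v l‖ ^ 2) := by
    intro l hl0 hl1
    have e0 := (num ha hb h1 h2' hl0 hl1).2 ‖t l‖ (norm_nonneg _) (hM l hl0 hl1)
    have e1 := norm_add_sq_real τ₁ (v l)
    have e2 := norm_add_sq_real τ₂ (v l)
    have e3 := hvi l hl0 hl1
    have e4 : inner ℝ (t l) (v l) = (1 - l) * inner ℝ τ₁ (v l) + l * inner ℝ τ₂ (v l) := by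
      rw [ht]
      change inner ℝ ((1 - l) • τ₁ + l • τ₂) (v l) = _
      rw [inner_add_left, real_inner_smul_left, real_inner_smul_left]
    rw [e1, e2, hvn l hl0 hl1]
    have e5 : 4 / 3 < (1 - l) * (a ^ 2 + ‖τ₁‖ ^ 2) + l * (b ^ 2 + ‖τ₂‖ ^ 2) := by
      rcases eq_or_lt_of_le hl0 with h | h
      · rw [← h]
        linarith
      · have f1 : (1 - l) * (4 / 3) ≤ (1 - l) * (a ^ 2 + ‖τ₁‖ ^ 2) :=
          mul_le_mul_of_nonneg_left hA.le (by linarith)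
        have f2 : l * (4 / 3) < l * (b ^ 2 + ‖τ₂‖ ^ 2) := mul_lt_mul_of_pos_left hB h
        linarith
    rw [e4] at e3
    linarith
  have hvc : ContinuousOn v (Set.Icc 0 1) := by
    rw [hv]
    apply ContinuousOn.smul _ htc.continuousOn
    apply ContinuousOn.mul continuousOn_const
    apply ContinuousOn.inv₀ (htc.norm.continuousOn)
    intro l hl
    exact (hpos l hl.1 hl.2).ne'
  have hfc : ContinuousOn (fun l => (27 / 25 + b) ^ 2 + ‖τ₂ + v l‖ ^ 2) (Set.Icc 0 1) := by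
    apply ContinuousOn.add continuousOn_const
    apply ContinuousOn.pow
    apply ContinuousOn.norm
    exact ContinuousOn.add continuousOn_const hvc
  have hf1 := hcomb 1 (by norm_num) le_rfl
  have hf0 := hcomb 0 le_rfl (by norm_num)
  rcases le_or_gt 4 ((27 / 25 + b) ^ 2 + ‖τ₂ + v 0‖ ^ 2) with hcase | hcase
  · refine ⟨v 0, (hvn 0 le_rfl (by norm_num)).le, ?_, hcase⟩
    linarith
  · have hmem : (4 : ℝ) ∈ Set.Icc ((27 / 25 + b) ^ 2 + ‖τ₂ + v 0‖ ^ 2)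
        ((27 / 25 + b) ^ 2 + ‖τ₂ + v 1‖ ^ 2) := ⟨hcase.le, by linarith⟩
    obtain ⟨l, hl, hl4⟩ := intermediate_value_Icc (show (0 : ℝ) ≤ 1 by norm_num) hfc hmem
    have hl4' : (27 / 25 + b) ^ 2 + ‖τ₂ + v l‖ ^ 2 = 4 := hl4
    have e := hcomb l hl.1 hl.2
    rw [hl4'] at e
    refine ⟨v l, (hvn l hl.1 hl.2).le, ?_, hl4'.ge⟩
    have hl1 : 0 < 1 - l := by
      by_contra hc
      have : l = 1 := le_antisymm hl.2 (by linarith)
      rw [this] at e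
      norm_num at e
    have e' : (1 - l) * 4 < (1 - l) * ((27 / 25 + a) ^ 2 + ‖τ₁ + v l‖ ^ 2) := by linarith
    exact (lt_of_mul_lt_mul_left e' hl1.le).le

end PCP53
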