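import Pool.Agent.PCP53.Big
import Pool.Agent.PCH84.Rot
import Pool.Agent.PCH.ExcSmall

/-!
The main lemma: the next generator exists.
-/

namespace PCP53

lemma rho_sq : (2 / Real.sqrt 3) ^ 2 = 4 / 3 := by
  rw [div_pow, Real.sq_sqrt (by norm_num)]
  norm_num

lemma one_le_rho : 1 ≤ 2 / Real.sqrt 3 := by
  have h : (1 : ℝ) ^ 2 ≤ (2 / Real.sqrt 3) ^ 2 := by
    rw [rho_sq]
    norm_num
  exact abs_le_of_sq_le_sq' h (by positivity) |>.2

lemma small_le_one {a b : ℝ} (ha : 0 ≤ a) (hb : 0 ≤ b) (h : a ^ 2 + a * b + b ^ 2 < 1) :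
    b ≤ 1 := by
  by_contra hc
  push Not at hc
  nlinarith [mul_nonneg ha hb, sq_nonneg a]

lemma large_fine {a b : ℝ} (ha : 0 ≤ a) (ha' : a ≤ 1 / 4) (hb : 1 - a / 3 ≤ b) :
    1 ≤ a ^ 2 + a * b + b ^ 2 := by
  have h1 : (1 - a / 3) ^ 2 ≤ b ^ 2 := pow_le_pow_left₀ (by linarith) hb 2
  have h2 : a * (1 - a / 3) ≤ a * b := mul_le_mul_of_nonneg_left hb ha
  nlinarith

lemma sum_lt_rho {a b : ℝ} (ha : 0 ≤ a) (hb : 0 ≤ b) (h : a ^ 2 + a * b + b ^ 2 < 1) :
    a + b < 2 / Real.sqrt 3 := by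
  have h2 : (a + b) ^ 2 < (2 / Real.sqrt 3) ^ 2 := by
    rw [rho_sq]
    nlinarith [sq_nonneg (a - b)]
  exact lt_of_pow_lt_pow_left₀ 2 (by positivity) h2

theorem exists_q {H : Type*} [NormedAddCommGroup H] [InnerProductSpace ℝ H] {ι : Type*}
    (P : ι → ℝ) (τ : ι → H)
    (hP : ∀ i, 0 ≤ P i) (hpair : ∀ i j, i ≠ j → 1 ≤ P i + P j)
    (htight : ∀ i j, i ≠ j → P i + P j < 2 / Real.sqrt 3 → ‖τ i - τ j‖ ^ 2 ≤ 3)
    (htri : ∀ i j k, i ≠ j → i ≠ k → j ≠ k →
      3 ≤ 2 * P i + P j + P k ∨ 3 ≤ P i + 2 * P j + P k ∨ 3 ≤ P i + P j + 2 * P k)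
    (hunc : ∀ i, 4 / 3 < P i ^ 2 + ‖τ i‖ ^ 2) :
    ∃ (Q : ℝ) (v : H), 1 ≤ Q ∧ Q ^ 2 + ‖v‖ ^ 2 ≤ 4 / 3 ∧
      ∀ k, 4 ≤ (Q + P k) ^ 2 + ‖τ k + v‖ ^ 2 ∧
        (Q + P k < 2 / Real.sqrt 3 → ‖τ k + v‖ ^ 2 ≤ 3) := by
  have hρ := rho_le
  have hρ2 := rho_sq
  have hρ1 := one_le_rho
  by_cases hblk : ∃ i, (2 / Real.sqrt 3 + P i) ^ 2 + ‖τ i‖ ^ 2 < 4
  · obtain ⟨i, hi⟩ := hblk
    have hui := hunc i
    have hPi := hP i
    obtain ⟨Q, w, hQ1, hw0, hQw, h4, hwle, hQge, ha3⟩ :=
      PCH84.exists_w hPi (norm_nonneg (τ i)) hui hi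
    have ha : P i ≤ 58 / 100 := by
      by_contra hc
      push Not at hc
      nlinarith
    have hT0 : 0 < ‖τ i‖ := by
      by_contra hc
      have e : ‖τ i‖ = 0 := le_antisymm (not_lt.mp hc) (norm_nonneg _)
      rw [e] at hui
      nlinarith
    -- the construction with `w`
    have main : (∀ k, k ≠ i → (1 ≤ P i ^ 2 + P i * P k + P k ^ 2) ∨
        (P i ≤ 1 / 4 ∧ P k ≤ 1 ∧ P i + P k < 2 / Real.sqrt 3)) →
        ∃ (Q : ℝ) (v : H), 1 ≤ Q ∧ Q ^ 2 + ‖v‖ ^ 2 ≤ 4 / 3 ∧
          ∀ k, 4 ≤ (Q + P k) ^ 2 + ‖τ k + v‖ ^ 2 ∧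
            (Q + P k < 2 / Real.sqrt 3 → ‖τ k + v‖ ^ 2 ≤ 3) := by
      intro hall
      have hself := PCH84.norm_add_self hT0 hw0
      refine ⟨Q, (w / ‖τ i‖) • τ i, hQ1, ?_, ?_⟩
      · rw [hself.2]
        exact hQw.le
      · intro k
        by_cases hk : k = i
        · subst hk
          rw [hself.1]
          refine ⟨h4.ge, fun _ => ?_⟩
          have e2 : (1 : ℝ) ^ 2 ≤ (Q + P k) ^ 2 :=
            pow_le_pow_left₀ (by norm_num) (by linarith) 2
          linarith
        · have hsum := hpair i k (fun h => hk h.symm)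
          have hPk := hP k
          refine ⟨?_, fun h => by linarith⟩
          rcases hall k hk with h | ⟨h, h1, h'⟩
          · exact PCH84.rot_fine hPi ha3 hPk hQ1 hw0 hQw hwle hQge hT0 h (hunc k)
          · have ht := htight i k (fun h => hk h.symm) h'
            have e1 := norm_sub_sq_real (τ i) (τ k)
            have e2 := norm_add_sq_real (τ k) ((w / ‖τ i‖) • τ i)
            have e3 : inner ℝ (τ k) ((w / ‖τ i‖) • τ i)
                = w * inner ℝ (τ i) (τ k) / ‖τ i‖ := by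
              rw [real_inner_smul_right, real_inner_comm]
              ring
            have e4 := Pool.Agent.PCH.exc_small hPi h hsum h1 hT0 hui.le (hunc k).le
              (c := inner ℝ (τ i) (τ k)) (by linarith) (by linarith : (0 : ℝ) ≤ Q) hw0 hQw h4
            rw [e2, e3, hself.2]
            have e5 : 2 * (w * inner ℝ (τ i) (τ k) / ‖τ i‖)
                = 2 * w * inner ℝ (τ i) (τ k) / ‖τ i‖ := by ring
            rw [e5]
            exact e4
    by_cases hex : ∃ j, j ≠ i ∧ P i ^ 2 + P i * P j + P j ^ 2 < 1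
    · obtain ⟨j, hji, hj⟩ := hex
      have hij : i ≠ j := fun h => hji h.symm
      have hsum := hpair i j hij
      have hlt : P i + P j < 2 / Real.sqrt 3 := sum_lt_rho hPi (hP j) hj
      rcases le_or_gt (1 / 4) (P i) with h4 | h4
      · exact case_big P τ htight htri hunc i j hij h4 (by linarith) hsum hlt
      · apply main
        intro k hk
        by_cases hkj : k = j
        · subst hkj
          exact Or.inr ⟨h4.le, small_le_one hPi (hP k) hj, hlt⟩
        · left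
          have hPj : P j < 1 - P i / 3 := by
            by_contra hc
            push Not at hc
            exact absurd hj (not_lt.mpr (large_fine hPi h4.le hc))
          have hPk : 1 - P i / 3 ≤ P k := by
            by_contra hc
            push Not at hc
            rcases htri i j k hij (fun h => hk h.symm) (fun h => hkj h.symm) with h | h | h
            · linarith
            · linarith
            · linarith
          exact large_fine hPi h4.le hPk
    · apply main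
      intro k hk
      left
      by_contra hc
      exact hex ⟨k, hk, not_le.mp hc⟩
  · push Not at hblk
    refine ⟨2 / Real.sqrt 3, 0, hρ1, ?_, ?_⟩
    · rw [norm_zero, hρ2]
      norm_num
    · intro k
      rw [add_zero]
      exact ⟨hblk k, fun h => by linarith [hP k]⟩

end PCP53
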